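import Pool.Agent.Lib.MP_de94ef_pr.U.Shape

open MeasureTheory ProbabilityTheory Filter
open scoped Pointwise

namespace Pool.Agent.Lib.MP_de94ef_pr.U

open Pool.Agent.Lib.MP_de94ef_pr.Q

/-- The fattened cluster differs from the scaled limit shape only in a thin shell: a deviation
bound with an exponent below two. -/
theorem boundary : ∃ θ c C : ℝ, 1 < θ ∧ θ < 2 ∧ 0 < c ∧
    ∀ (Ω : Type) [MeasureSpace Ω] [IsProbabilityMeasure (volume : Measure Ω)]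
    (X : Sym2 (ℤ × ℤ) → Ω → ℝ) (T : Ω → ℤ × ℤ → ℝ) (μ : ℝ × ℝ → ℝ),
    (∀ e, Measurable (X e)) →
    iIndepFun X (volume : Measure Ω) →
    (∀ e, Measure.map (X e) (volume : Measure Ω) = expMeasure 1) →
    (∀ ω v, T ω v = sInf {s : ℝ | ∃ n : ℕ, ∃ p : ℕ → ℤ × ℤ, p 0 = 0 ∧ p n = v ∧
        (∀ i < n, |(p (i + 1)).1 - (p i).1| + |(p (i + 1)).2 - (p i).2| = 1) ∧
        s = ∑ i ∈ Finset.range n, X s(p i, p (i + 1)) ω}) →
    (∀ (x : ℝ × ℝ) (c : ℝ), 0 ≤ c → μ (c • x) = c * μ x) →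
    Continuous μ →
    (∀ z : ℤ × ℤ, ∀ᵐ ω ∂(volume : Measure Ω),
        Tendsto (fun n : ℕ => T ω ((n : ℤ) • z) / (n : ℝ)) atTop
          (nhds (μ ((z.1 : ℝ), (z.2 : ℝ))))) →
    ∀ t s : ℝ, 0 < s → s ≤ t →
      ((volume : Measure Ω) {ω | ∃ x ∈ symmDiff {x : ℝ × ℝ | ∃ v : ℤ × ℤ, T ω v ≤ t ∧
          |x.1 - (v.1 : ℝ)| ≤ 1 / 2 ∧ |x.2 - (v.2 : ℝ)| ≤ 1 / 2} (t • {x : ℝ × ℝ | μ x ≤ 1}),
          s ≤ |μ x - t|}).toReal ≤ C * Real.exp (-(c * (t * (s / t) ^ θ))) := by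
  obtain ⟨θ, c, C, θ1, θ2, c0, c1, hC, h⟩ := bad_theta
  refine ⟨θ, c, C, θ1, θ2, c0, fun Ω _ _ X T μ h1 h2 h3 h4 h5 h6 h7 t s s0 st => ?_⟩
  obtain ⟨Φ, hΦ, ha, hμ⟩ := transfer h1 h2 h3 h4 h5 h6 h7
  have C0 : 0 ≤ C := (Real.exp_pos 8).le.trans hC
  have t0 : 0 < t := by linarith
  refine ENNReal.toReal_le_of_le_ofReal (by positivity) ?_
  rcases le_total s 8 with h8 | h8
  · refine prob_le_one.trans ((one_le_bound (C := 8) (a := c * (t * (s / t) ^ θ)) ?_).trans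
      (ENNReal.ofReal_le_ofReal (mul_le_mul_of_nonneg_right hC (Real.exp_pos _).le)))
    have a1 := Real.rpow_le_rpow_of_exponent_ge (div_pos s0 t0) ((div_le_one t0).2 st) θ1.le
    rw [Real.rpow_one, le_div_iff₀ t0] at a1
    have a2 : 0 ≤ t * (s / t) ^ θ := by positivity
    nlinarith
  refine le_trans ?_ (h μ hμ t s (by linarith) st)
  rw [← hΦ.measure_preimage (s := BadU μ (s / (2 * √t)) t)
    (MeasurableSet.biUnion (Set.to_countable _)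
      fun e _ => measurableSet_bad μ _ t e).nullMeasurableSet]
  refine measure_mono_ae ?_
  filter_upwards [ha] with ω hω hE
  refine symm_bad hμ h8 st ?_
  simp only [← hω]
  exact hE

end Pool.Agent.Lib.MP_de94ef_pr.U
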