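import Pool.Agent.Lib.MP_de94ef_pr.U.Boundary

/-!
The point to point form, deduced from the shape form.
-/

open MeasureTheory ProbabilityTheory Filter
open scoped Pointwise

namespace Pool.Agent.Lib.MP_de94ef_pr.U

lemma ball_iff {μ : ℝ × ℝ → ℝ} (h : ∀ (x : ℝ × ℝ) (c : ℝ), 0 ≤ c → μ (c • x) = c * μ x) {ρ : ℝ}
    (hρ : 0 < ρ) (x : ℝ × ℝ) : x ∈ ρ • {x : ℝ × ℝ | μ x ≤ 1} ↔ μ x ≤ ρ := by
  rw [Set.mem_smul_set_iff_inv_smul_mem₀ hρ.ne', Set.mem_ofPred_eq, h _ _ (by positivity),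
    inv_mul_le_iff₀ hρ, mul_one]

lemma dev_key {θ c C n s t : ℝ} (θ2 : θ < 2) (hc : 0 < c) (n0 : 0 < n) (s0 : 0 < s)
    (h1 : s / 2 ≤ t) (h2 : t ≤ n + s / 2) : C * Real.exp (-(c * (t * (s / 2 / t) ^ θ))) ≤
      |C| * Real.exp (-(c / 6 * (s * min 1 (s / n) ^ (max θ 1 - 1)))) := by
  have t0 : 0 < t := by linarith
  have x0 : 0 < s / 2 / t := by positivity
  have g0 : 0 ≤ max θ 1 - 1 := by linarith [le_max_right θ 1]
  have g1 : max θ 1 - 1 ≤ 1 := by linarith [max_lt θ2 (show (1 : ℝ) < 2 by norm_num)]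
  refine mul_le_mul (le_abs_self C) (Real.exp_le_exp.2 (neg_le_neg ?_)) (Real.exp_pos _).le
    (abs_nonneg C)
  have a1 := Real.rpow_le_rpow_of_exponent_ge x0 ((div_le_one t0).2 h1) (le_max_left θ 1)
  have a2 : t * (s / 2 / t) ^ max θ 1 = s / 2 * (s / 2 / t) ^ (max θ 1 - 1) := by
    rw [Real.rpow_sub x0, Real.rpow_one]; field_simp
  have a3 : min 1 (s / n) / 3 ≤ s / 2 / t := by
    rw [le_div_iff₀ t0]
    have b1 : min 1 (s / n) * n ≤ s := (le_div_iff₀ n0).1 (min_le_right _ _)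
    have b2 : min 1 (s / n) * s ≤ s := mul_le_of_le_one_left s0.le (min_le_left _ _)
    have b3 := mul_le_mul_of_nonneg_left h2 (show 0 ≤ min 1 (s / n) by positivity)
    linarith
  have a4 := Real.rpow_le_rpow (by positivity) a3 g0
  have a5 : (3 : ℝ) ^ (max θ 1 - 1) ≤ 3 :=
    (Real.rpow_le_rpow_of_exponent_le (by norm_num) g1).trans (Real.rpow_one _).le
  have a6 : min 1 (s / n) ^ (max θ 1 - 1) / 3 ≤ (min 1 (s / n) / 3) ^ (max θ 1 - 1) := by
    rw [Real.div_rpow (by positivity) (by norm_num)]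
    exact div_le_div_of_nonneg_left (by positivity) (by positivity) a5
  have a7 := mul_le_mul_of_nonneg_left (a6.trans a4) (show 0 ≤ s / 2 by positivity)
  have a8 := mul_le_mul_of_nonneg_left a1 t0.le
  have a9 := mul_le_mul_of_nonneg_left ((a7.trans a2.ge).trans a8) hc.le
  linarith

lemma int_eq {a b : ℤ} (h : |(a : ℝ) - b| ≤ 1 / 2) : b = a := by
  have h1 : |(a : ℝ) - b| < 1 := by linarith
  have h2 : |a - b| < 1 := by exact_mod_cast h1
  have := Int.abs_lt_one_iff.1 h2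
  omega

/-- The point to point form. -/
theorem deviation_of_boundary : ∃ η c C : ℝ, 0 < η ∧ η < 1 ∧ 0 < c ∧
    ∀ (Ω : Type) [MeasureSpace Ω] [IsProbabilityMeasure (volume : Measure Ω)]
    (X : Sym2 (ℤ × ℤ) → Ω → ℝ) (T : Ω → ℤ × ℤ → ℝ) (μ : ℝ × ℝ → ℝ),
    (∀ e, Measurable (X e)) →
    iIndepFun X (volume : Measure Ω) →
    (∀ e, Measure.map (X e) (volume : Measure Ω) = expMeasure 1) →
    (∀ ω v, T ω v = sInf {s : ℝ | ∃ n : ℕ, ∃ p : ℕ → ℤ × ℤ, p 0 = 0 ∧ p n = v ∧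
        (∀ i < n, |(p (i + 1)).1 - (p i).1| + |(p (i + 1)).2 - (p i).2| = 1) ∧
        s = ∑ i ∈ Finset.range n, X s(p i, p (i + 1)) ω}) →
    (∀ (x : ℝ × ℝ) (c : ℝ), 0 ≤ c → μ (c • x) = c * μ x) →
    Continuous μ →
    (∀ z : ℤ × ℤ, ∀ᵐ ω ∂(volume : Measure Ω),
        Tendsto (fun n : ℕ => T ω ((n : ℤ) • z) / (n : ℝ)) atTop
          (nhds (μ ((z.1 : ℝ), (z.2 : ℝ))))) →
    ∀ (v : ℤ × ℤ) (n s : ℝ), v ≠ 0 → n = |(v.1 : ℝ)| + |(v.2 : ℝ)| → 0 < s →
      ((volume : Measure Ω) {ω | s ≤ |T ω v - μ ((v.1 : ℝ), (v.2 : ℝ))|}).toReal ≤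
        C * Real.exp (-(c * (s * min 1 (s / n) ^ η))) := by
  obtain ⟨θ, c, C, θ1, θ2, hc, h⟩ := boundary
  refine ⟨max θ 1 - 1, c / 6, 2 * |C|, by linarith [le_max_left θ 1],
    by linarith [max_lt θ2 (show (1 : ℝ) < 2 by norm_num)],
    by positivity, fun Ω _ _ X T μ h1 h2 h3 h4 h5 h6 h7 v n s hv hn s0 => ?_⟩
  obtain ⟨Φ, -, ha, hμ⟩ := transfer h1 h2 h3 h4 h5 h6 h7
  have m0 : 0 ≤ μ ((v.1 : ℝ), (v.2 : ℝ)) := hμ.nonneg _
  have m1 : μ ((v.1 : ℝ), (v.2 : ℝ)) ≤ n := by rw [hn]; exact hμ.le _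
  have n0 : 0 < n := by
    rcases (m0.trans m1).eq_or_lt with h0 | h0
    · have a1 := abs_nonneg (v.1 : ℝ)
      have a2 := abs_nonneg (v.2 : ℝ)
      have a3 : (v.1 : ℝ) = 0 := abs_eq_zero.1 (by linarith)
      have a4 : (v.2 : ℝ) = 0 := abs_eq_zero.1 (by linarith)
      exact absurd (Prod.ext (by exact_mod_cast a3) (by exact_mod_cast a4)) hv
    · exact h0
  generalize hm : μ ((v.1 : ℝ), (v.2 : ℝ)) = m at m0 m1
  have up : ((volume : Measure Ω) {ω | s ≤ T ω v - m}).toReal ≤ _ :=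
    le_trans (ENNReal.toReal_mono (measure_ne_top _ _) (measure_mono fun ω hω => ?_))
      ((h Ω X T μ h1 h2 h3 h4 h5 h6 h7 (m + s / 2) (s / 2) (by positivity) (by linarith)).trans
        (dev_key θ2 hc n0 s0 (by linarith) (by linarith)))
  swap
  · refine ⟨((v.1 : ℝ), (v.2 : ℝ)), Set.mem_symmDiff.2 (Or.inr ⟨?_, ?_⟩), ?_⟩
    · rw [ball_iff h5 (by positivity), hm]; linarith
    · rintro ⟨w, b1, b2, b3⟩
      rw [show w = v from Prod.ext (int_eq b2) (int_eq b3)] at b1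
      have : s ≤ T ω v - m := hω
      linarith
    · rw [hm]; exact le_trans (by linarith) (neg_le_abs _)
  have lo : ((volume : Measure Ω) {ω | s ≤ -(T ω v - m)}).toReal ≤
      |C| * Real.exp (-(c / 6 * (s * min 1 (s / n) ^ (max θ 1 - 1)))) := by
    rcases le_or_gt s m with hs | hs
    · refine le_trans (ENNReal.toReal_mono (measure_ne_top _ _) (measure_mono fun ω hω => ?_))
        ((h Ω X T μ h1 h2 h3 h4 h5 h6 h7 (m - s / 2) (s / 2) (by positivity) (by linarith)).trans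
          (dev_key θ2 hc n0 s0 (by linarith) (by linarith)))
      have b1 : s ≤ -(T ω v - m) := hω
      refine ⟨((v.1 : ℝ), (v.2 : ℝ)), Set.mem_symmDiff.2 (Or.inl ⟨⟨v, by linarith, by simp,
        by simp⟩, ?_⟩), ?_⟩
      · rw [ball_iff h5 (by linarith), hm]; linarith
      · rw [hm]; exact le_trans (by linarith) (le_abs_self _)
    · have : (volume : Measure Ω) {ω | s ≤ -(T ω v - m)} = 0 := by
        refine measure_eq_zero_iff_ae_notMem.2 ?_
        filter_upwards [ha] with ω hω hE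
        have b1 : s ≤ -(T ω v - m) := hE
        linarith [TT_nonneg (Φ ω) 0 v, hω v]
      rw [this, ENNReal.toReal_zero]
      positivity
  have un : (volume : Measure Ω) {ω | s ≤ |T ω v - m|} ≤
      volume {ω | s ≤ T ω v - m} + volume {ω | s ≤ -(T ω v - m)} :=
    le_trans (measure_mono fun ω (hω : s ≤ |T ω v - m|) => le_abs.1 hω) (measure_union_le _ _)
  have := ENNReal.toReal_mono (ENNReal.add_ne_top.2 ⟨measure_ne_top _ _, measure_ne_top _ _⟩) un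
  rw [ENNReal.toReal_add (measure_ne_top _ _) (measure_ne_top _ _)] at this
  linarith

end Pool.Agent.Lib.MP_de94ef_pr.U
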