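import Pool.Agent.Results.MP_de94ef_pr.Deviation

/-!
The new statements imply the earlier ones, which are copied here word for word.
-/

open MeasureTheory ProbabilityTheory Filter
open scoped Pointwise

namespace Pool.Agent.Lib.MP_de94ef_pr.U

open Pool.Agent.Results.MP_de94ef_pr

lemma bigO_of {f : ℝ → ℝ} {θ c C ζ q : ℝ} (hc : 0 < c) (h1 : 2 / 3 - 1 / max θ 1 < ζ)
    (h2 : ζ < 2 / 3) (h0 : ∀ t, 0 ≤ f t)
    (h : ∀ t, 1 < t → f t ≤ C * Real.exp (-(c * (t * (t ^ (-(2 / 3 : ℝ) + ζ) * t / t) ^ θ)))) :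
    Asymptotics.IsBigO atTop f fun t : ℝ => t ^ (-q) := by
  have m1 : 1 ≤ max θ 1 := le_max_right _ _
  obtain ⟨γ, hγ⟩ : ∃ γ, γ = 1 + (-(2 / 3 : ℝ) + ζ) * max θ 1 := ⟨_, rfl⟩
  have γ0 : 0 < γ := by
    have : 2 / 3 - ζ < 1 / max θ 1 := by linarith
    rw [lt_div_iff₀ (by linarith)] at this
    linarith
  refine Asymptotics.IsBigO.of_bound |C| ?_
  filter_upwards [(tendsto_rpow_atTop γ0).eventually
    (isLittleO_exp_neg_mul_rpow_atTop hc (-q / γ)).eventuallyLE, eventually_gt_atTop 1]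
    with t h3 h4
  have ht : 0 < t := by linarith
  rw [Real.norm_eq_abs, Real.norm_eq_abs, abs_of_pos (Real.exp_pos _), ← Real.rpow_mul ht.le,
    mul_div_cancel₀ _ γ0.ne', abs_of_pos (Real.rpow_pos_of_pos ht _)] at h3
  rw [Real.norm_eq_abs, Real.norm_eq_abs, abs_of_nonneg (h0 t),
    abs_of_pos (Real.rpow_pos_of_pos ht _)]
  refine (h t h4).trans (mul_le_mul (le_abs_self C) (le_trans (Real.exp_le_exp.2 ?_) h3)
    (Real.exp_pos _).le (abs_nonneg C))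
  have a1 := Real.rpow_le_rpow_of_exponent_ge (Real.rpow_pos_of_pos ht (-(2 / 3 : ℝ) + ζ))
    (Real.rpow_le_one_of_one_le_of_nonpos h4.le (by linarith)) (le_max_left θ 1)
  rw [← Real.rpow_mul ht.le] at a1
  rw [mul_div_cancel_right₀ _ ht.ne', hγ, Real.rpow_add ht 1, Real.rpow_one, neg_mul c]
  exact neg_le_neg (mul_le_mul_of_nonneg_left (mul_le_mul_of_nonneg_left a1 ht.le) hc.le)

lemma zeta_lt {θ : ℝ} (h : θ < 2) : 2 / 3 - 1 / max θ 1 < 1 / 6 := by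
  have : 1 / 2 < 1 / max θ 1 :=
    one_div_lt_one_div_of_lt (lt_of_lt_of_le one_pos (le_max_right _ _)) (max_lt h (by norm_num))
  linarith

theorem shape_of_boundary : ∃ ζ0 : ℝ, ζ0 < 1 / 6 ∧
    ∀ (Ω : Type) [MeasureSpace Ω] [IsProbabilityMeasure (volume : Measure Ω)]
    (X : Sym2 (ℤ × ℤ) → Ω → ℝ) (T : Ω → ℤ × ℤ → ℝ) (μ : ℝ × ℝ → ℝ),
    (∀ e, Measurable (X e)) →
    iIndepFun X (volume : Measure Ω) →
    (∀ e, Measure.map (X e) (volume : Measure Ω) = expMeasure 1) →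
    (∀ ω v, T ω v = sInf {s : ℝ | ∃ n : ℕ, ∃ p : ℕ → ℤ × ℤ, p 0 = 0 ∧ p n = v ∧
        (∀ i < n, |(p (i + 1)).1 - (p i).1| + |(p (i + 1)).2 - (p i).2| = 1) ∧
        s = ∑ i ∈ Finset.range n, X s(p i, p (i + 1)) ω}) →
    (∀ (x : ℝ × ℝ) (c : ℝ), 0 ≤ c → μ (c • x) = c * μ x) →
    Continuous μ →
    (∀ z : ℤ × ℤ, ∀ᵐ ω ∂(volume : Measure Ω),
        Tendsto (fun n : ℕ => T ω ((n : ℤ) • z) / (n : ℝ)) atTop
          (nhds (μ ((z.1 : ℝ), (z.2 : ℝ))))) →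
    ∀ ζ : ℝ, ζ0 < ζ → ζ < 2 / 3 → ∀ q : ℝ, 0 < q →
      Asymptotics.IsBigO atTop
        (fun t : ℝ => ((volume : Measure Ω) {ω | ¬ (
            ((1 - t ^ (-(2 / 3 : ℝ) + ζ)) * t) • {x : ℝ × ℝ | μ x ≤ 1} ⊆
              {x : ℝ × ℝ | ∃ v : ℤ × ℤ, T ω v ≤ t ∧
                |x.1 - (v.1 : ℝ)| ≤ 1 / 2 ∧ |x.2 - (v.2 : ℝ)| ≤ 1 / 2} ∧
            {x : ℝ × ℝ | ∃ v : ℤ × ℤ, T ω v ≤ t ∧
                |x.1 - (v.1 : ℝ)| ≤ 1 / 2 ∧ |x.2 - (v.2 : ℝ)| ≤ 1 / 2} ⊆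
              ((1 + t ^ (-(2 / 3 : ℝ) + ζ)) * t) • {x : ℝ × ℝ | μ x ≤ 1})}).toReal)
        (fun t : ℝ => t ^ (-q)) := by
  obtain ⟨θ, c, C, -, θ2, hc, h⟩ := boundary
  refine ⟨_, zeta_lt θ2, fun Ω _ _ X T μ h1 h2 h3 h4 h5 h6 h7 ζ b1 b2 q _ => ?_⟩
  refine bigO_of (C := C) hc b1 b2 (fun _ => ENNReal.toReal_nonneg) fun t ht => ?_
  have t0 : 0 < t := by linarith
  have d0 := Real.rpow_pos_of_pos t0 (-(2 / 3 : ℝ) + ζ)
  have d1 := Real.rpow_lt_one_of_one_lt_of_neg (z := -(2 / 3 : ℝ) + ζ) ht (by linarith)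
  have d2 := mul_pos d0 t0
  refine le_trans (ENNReal.toReal_mono (measure_ne_top _ _) (measure_mono fun ω hω => ?_))
    (h Ω X T μ h1 h2 h3 h4 h5 h6 h7 t _ d2 (by nlinarith))
  rcases not_and_or.1 hω with hω | hω
  · obtain ⟨x, a1, a2⟩ := Set.not_subset.1 hω
    rw [ball_iff h5 (mul_pos (by linarith) t0)] at a1
    refine ⟨x, Set.mem_symmDiff.2 (Or.inr ⟨?_, a2⟩), le_trans (by linarith) (neg_le_abs _)⟩
    rw [ball_iff h5 t0]
    linarith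
  · obtain ⟨x, a1, a2⟩ := Set.not_subset.1 hω
    rw [ball_iff h5 (by positivity), not_le] at a2
    refine ⟨x, Set.mem_symmDiff.2 (Or.inl ⟨a1, ?_⟩), le_trans (by linarith) (le_abs_self _)⟩
    rw [ball_iff h5 t0, not_le]
    linarith

theorem tail_of_deviation : ∃ c C : ℝ, 0 < c ∧
    ∀ (Ω : Type) [MeasureSpace Ω] [IsProbabilityMeasure (volume : Measure Ω)]
    (X : Sym2 (ℤ × ℤ) → Ω → ℝ) (T : Ω → ℤ × ℤ → ℝ) (μ : ℝ × ℝ → ℝ),
    (∀ e, Measurable (X e)) →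
    iIndepFun X (volume : Measure Ω) →
    (∀ e, Measure.map (X e) (volume : Measure Ω) = expMeasure 1) →
    (∀ ω v, T ω v = sInf {s : ℝ | ∃ n : ℕ, ∃ p : ℕ → ℤ × ℤ, p 0 = 0 ∧ p n = v ∧
        (∀ i < n, |(p (i + 1)).1 - (p i).1| + |(p (i + 1)).2 - (p i).2| = 1) ∧
        s = ∑ i ∈ Finset.range n, X s(p i, p (i + 1)) ω}) →
    (∀ (x : ℝ × ℝ) (c : ℝ), 0 ≤ c → μ (c • x) = c * μ x) →
    Continuous μ →
    (∀ z : ℤ × ℤ, ∀ᵐ ω ∂(volume : Measure Ω),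
        Tendsto (fun n : ℕ => T ω ((n : ℤ) • z) / (n : ℝ)) atTop
          (nhds (μ ((z.1 : ℝ), (z.2 : ℝ))))) →
    ∀ (v : ℤ × ℤ) (n s : ℝ), n = |(v.1 : ℝ)| + |(v.2 : ℝ)| → 0 < s → s ≤ n →
      ((volume : Measure Ω) {ω | s ≤ |T ω v - μ ((v.1 : ℝ), (v.2 : ℝ))|}).toReal ≤
        C * Real.exp (-(c * (s ^ 2 * Real.log (n / s) / n))) := by
  obtain ⟨η, c, C, -, η1, hc, h⟩ := Deviation.result
  have d0 : 0 < 1 - η := by linarith
  refine ⟨c * (1 - η), |C|, by positivity,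
    fun Ω _ _ X T μ h1 h2 h3 h4 h5 h6 h7 v n s hn s0 sn => ?_⟩
  have n0 : 0 < n := by linarith
  have hv : v ≠ 0 := by
    rintro rfl
    simp at hn
    linarith
  refine (h Ω X T μ h1 h2 h3 h4 h5 h6 h7 v n s hv hn s0).trans (mul_le_mul (le_abs_self C)
    (Real.exp_le_exp.2 (neg_le_neg ?_)) (Real.exp_pos _).le (abs_nonneg C))
  rw [min_eq_right ((div_le_one n0).2 sn)]
  have x0 : 0 < s / n := by positivity
  have a1 := Real.log_le_rpow_div (x := n / s) (by positivity) d0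
  have a2 : (s / n) ^ η = s / n * (n / s) ^ (1 - η) := by
    rw [← inv_div s n, Real.inv_rpow x0.le, Real.rpow_sub x0, Real.rpow_one]
    field_simp
  rw [le_div_iff₀ d0] at a1
  have a3 := mul_le_mul_of_nonneg_left a1 (show 0 ≤ c * (s * (s / n)) by positivity)
  rw [a2]
  calc c * (1 - η) * (s ^ 2 * Real.log (n / s) / n)
      = c * (s * (s / n)) * (Real.log (n / s) * (1 - η)) := by ring
    _ ≤ _ := a3.trans (le_of_eq (by ring))

theorem fluct_of_deviation : ∃ ε C : ℝ, 0 < ε ∧ 0 < C ∧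
    ∀ (Ω : Type) [MeasureSpace Ω] [IsProbabilityMeasure (volume : Measure Ω)]
    (X : Sym2 (ℤ × ℤ) → Ω → ℝ) (T : Ω → ℤ × ℤ → ℝ) (μ : ℝ × ℝ → ℝ),
    (∀ e, Measurable (X e)) →
    iIndepFun X (volume : Measure Ω) →
    (∀ e, Measure.map (X e) (volume : Measure Ω) = expMeasure 1) →
    (∀ ω v, T ω v = sInf {s : ℝ | ∃ n : ℕ, ∃ p : ℕ → ℤ × ℤ, p 0 = 0 ∧ p n = v ∧
        (∀ i < n, |(p (i + 1)).1 - (p i).1| + |(p (i + 1)).2 - (p i).2| = 1) ∧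
        s = ∑ i ∈ Finset.range n, X s(p i, p (i + 1)) ω}) →
    (∀ (x : ℝ × ℝ) (c : ℝ), 0 ≤ c → μ (c • x) = c * μ x) →
    Continuous μ →
    (∀ z : ℤ × ℤ, ∀ᵐ ω ∂(volume : Measure Ω),
        Tendsto (fun n : ℕ => T ω ((n : ℤ) • z) / (n : ℝ)) atTop
          (nhds (μ ((z.1 : ℝ), (z.2 : ℝ))))) →
    ∀ (v : ℤ × ℤ) (n s : ℝ), v ≠ 0 → n = |(v.1 : ℝ)| + |(v.2 : ℝ)| →
      ((volume : Measure Ω) {ω | s ≤ |T ω v - μ ((v.1 : ℝ), (v.2 : ℝ))|}).toReal ≤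
        C * Real.exp (-(s / (C * n ^ (1 / 2 - ε)))) := by
  obtain ⟨η, c, C, -, η1, hc, h⟩ := Deviation.result
  obtain ⟨g, hg⟩ : ∃ g, g = max η 0 := ⟨_, rfl⟩
  have g0 : 0 ≤ g := by rw [hg]; exact le_max_right _ _
  have g1 : g < 1 := by rw [hg]; exact max_lt η1 one_pos
  have g2 : η ≤ g := by rw [hg]; exact le_max_left _ _
  obtain ⟨e, he⟩ : ∃ e, e = g / (1 + g) := ⟨_, rfl⟩
  have e0 : 0 ≤ e := by rw [he]; positivity
  have e1 : e < 1 / 2 := by rw [he, div_lt_iff₀ (by linarith)]; linarith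
  have e2 : (e - 1) * g = -e := by rw [he]; field_simp; ring
  obtain ⟨D, hD⟩ : ∃ D, D = |C| + 3 + 1 / c := ⟨_, rfl⟩
  have c1 : 0 < 1 / c := by positivity
  have D3 : 3 ≤ D := by linarith [abs_nonneg C]
  refine ⟨1 / 2 - e, D, by linarith, by linarith,
    fun Ω _ _ X T μ h1 h2 h3 h4 h5 h6 h7 v n s hv hn => ?_⟩
  have n1 : 1 ≤ n := by
    have h8 : (1 : ℤ) ≤ |v.1| + |v.2| := by
      by_contra hc
      have a1 := abs_nonneg v.1
      have a2 := abs_nonneg v.2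
      exact hv (Prod.ext (abs_eq_zero.1 (by omega)) (abs_eq_zero.1 (by omega)))
    rw [hn]
    exact_mod_cast h8
  have n0 : 0 < n := by linarith
  have p0 := Real.rpow_pos_of_pos n0 e
  rw [sub_sub_cancel]
  rcases le_total s (n ^ e) with hs | hs
  · refine le_trans (ENNReal.toReal_le_of_le_ofReal zero_le_one
      (by simpa using prob_le_one)) ?_
    have a1 : s / (D * n ^ e) ≤ 1 := by
      rw [div_le_one (by positivity)]; nlinarith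
    have a2 := Real.exp_le_exp.2 (neg_le_neg a1)
    have a3 : 1 ≤ 3 * Real.exp (-1) := by
      rw [Real.exp_neg, ← div_eq_mul_inv, le_div_iff₀ (Real.exp_pos _)]
      linarith [Real.exp_one_lt_d9]
    nlinarith [Real.exp_pos (-1)]
  have s0 : 0 < s := by linarith
  refine (h Ω X T μ h1 h2 h3 h4 h5 h6 h7 v n s hv hn s0).trans (mul_le_mul
    (by linarith [le_abs_self C]) (Real.exp_le_exp.2 (neg_le_neg ?_)) (Real.exp_pos _).le
    (by linarith))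
  have a1 : n ^ (e - 1) ≤ min 1 (s / n) := by
    refine le_min (Real.rpow_le_one_of_one_le_of_nonpos n1 (by linarith)) ?_
    rw [Real.rpow_sub n0, Real.rpow_one]
    gcongr
  have a2 := Real.rpow_le_rpow (by positivity) a1 g0
  rw [← Real.rpow_mul n0.le, e2, Real.rpow_neg n0.le] at a2
  have a3 := Real.rpow_le_rpow_of_exponent_ge (x := min 1 (s / n)) (by positivity)
    (min_le_left _ _) g2
  have a4 : D⁻¹ ≤ c := by
    rw [inv_le_comm₀ (by linarith) hc, ← one_div]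
    linarith [abs_nonneg C]
  calc s / (D * n ^ e) = D⁻¹ * (s * (n ^ e)⁻¹) := by field_simp
    _ ≤ _ := mul_le_mul a4 (mul_le_mul_of_nonneg_left (a2.trans a3) s0.le) (by positivity) hc.le

end Pool.Agent.Lib.MP_de94ef_pr.U
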