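import Pool.Agent.Lib.MP_de94ef_pr.Q.ShapeP

/-!
Exponential moments over many blocks at a general scale.
-/

open MeasureTheory ProbabilityTheory Set Real Function Filter Topology
open scoped ENNReal NNReal

namespace Pool.Agent.Lib.MP_de94ef_pr.U

open Pool.Agent.Lib.MP_de94ef_pr.Q

variable {μ : ℝ × ℝ → ℝ} {σ : ℝ → ℝ} {B m : ℝ}

theorem lowerU : ∃ Λ : ℝ, 0 ≤ Λ ∧ ∀ {μ : ℝ × ℝ → ℝ} {σ : ℝ → ℝ} {B m : ℝ}, IsTC μ → Sc σ →
    (∀ R, Conc σ R) → 0 ≤ B → (∀ R, EstU μ σ B 1 R) → 1 ≤ m → 2 * σ m ≤ m →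
    ∀ {K : ℕ}, 1 ≤ K → ∀ {x : VV}, μ (iv x) = K * m →
    ∫⁻ ω, ENNReal.ofReal (exp ((K * m - TT ω 0 x) / (432 * σ m))) ∂PE ≤
      ENNReal.ofReal (exp ((B + Λ) * K)) := by
  obtain ⟨Λ, hΛ0, hΛ⟩ := sum_exp (ε := 1 / 864) (by norm_num)
  refine ⟨Λ + 12, by linarith, fun {μ σ B m} h hσ hc hB hU hm h2 K hK x hx => ?_⟩
  have hK' : (1 : ℝ) ≤ K := by exact_mod_cast hK
  have s1 := hσ.big m hm
  obtain ⟨f, hu, hL, hF⟩ := exists_tangent h (unit_dir h hx (by positivity)) (κ := σ m / m)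
    (by positivity) (by rw [div_le_iff₀ (by linarith)]; linarith)
  have hx' : iv x = ((K : ℝ) * m) • f.u := by rw [hu, smul_inv_smul₀ (by positivity)]
  rw [← hu] at hL
  have hD : ∀ (M : ℕ) (k j : ℤ), Dom (Blk f.u f.t f.L m m M k (k + j))
      (-meanF f m m j / 2 + 4 * (σ m / m) * m + 6 +
        2 * (2 * (σ m / m) * m + (100 * B + 2000) * σ m) + 16) (432 * σ m) :=
    fun M k j => (blockF h hσ hF hB le_rfl (hU (200 * m)) hm le_rfl (by linarith) (by linarith)
      (midF h hσ (hc (1024 * m)) hF hm (by linarith) le_rfl le_rfl j) M k).scale (by positivity)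
        (by linarith)
  have h1 := treeF h hF (by linarith) (w := m) (by linarith) (by linarith) hD 0 hK hx'
  have e1 : f.L (iv x) = K * m := by rw [hx', map_smul, hL, smul_eq_mul, mul_one]
  rw [e1] at h1
  refine h1.trans ((pow_le_pow_left' (G_le hΛ (A := B + 10) fun j => ?_) _).trans ?_)
  · have f1 : _ ≤ meanF f m m j := vq_low h hF (m := m) (by linarith) (by linarith) j
    have k2 : σ m / m * m = σ m := by field_simp
    have k3 : σ m / m * (m + 3 * m) = 4 * σ m := by field_simp; ring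
    have k4 : 0 ≤ B * σ m := by positivity
    rw [k2, mul_assoc 2, k3] at f1
    rw [zero_mul, add_zero, div_le_iff₀ (by linarith), mul_assoc 4, mul_assoc 2, k2]
    linarith
  · rw [← ENNReal.ofReal_pow (by positivity), mul_comm _ (K : ℝ), exp_nat_mul]
    refine ENNReal.ofReal_le_ofReal (pow_le_pow_left₀ (by positivity) ?_ _)
    rw [show B + (Λ + 12) = 2 + (B + 10 + Λ) by ring, exp_add 2]
    gcongr
    linarith [add_one_le_exp (2 : ℝ)]

lemma lintegralU (h : IsTC μ) (hσ : Sc σ) (hB : 0 ≤ B) (hU : ∀ R, EstU μ σ B 1 R)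
    (hm : 10 ^ 27 ≤ m) {L : ℕ} (hL : 1000 * m ≤ L) (hL' : L ≤ 1001 * m) {y y' : VV}
    (hy : μ (iv (y' - y)) ≤ m + 2) :
    ∫⁻ ω, ENNReal.ofReal (exp ((TL L y y' ω - m) / (4 * σ m))) ∂PE ≤
      ENNReal.ofReal (exp (B + 4)) := by
  have h1 := h.ge (iv (y' - y))
  rw [r1_iv] at h1
  have s1 := hσ.big m (by linarith)
  have s3 := hσ.mul m 4 (by linarith) (by norm_num)
  have s4 := hσ.big (4 ^ 2 * m) (by linarith)
  have h2 := hU _ y y' (4 ^ 2 * m) (by linarith) (by linarith) le_rfl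
  rw [div_one] at h2
  have h3 := mul_le_mul_of_nonneg_left s3 hB
  have h4 : 0 ≤ B * σ m := by positivity
  obtain ⟨W, a1, a2, a3⟩ := Dom.union (d := m + (4 * B + 1) * σ m) (s := 4 * σ m)
    (C := fun ω a => a = TL L y y' ω) (A := fun ω a => a ≤ TT ω y y')
    (B := fun ω a => ∃ e, L ≤ n1 (e - y) ∧ n1 (e - y) ≤ L + 1 ∧
      a ≤ 2 * wt ω (es (stair y y')) - TT ω y e)
    ((h2.scale (by linarith) s3).mono (by linarith) fun ω a ha => ⟨_, rfl, by linarith⟩)
    (((dom_exit hm hL hL' (y := y) (y' := y') (by linarith)).scale (by norm_num)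
      (by linarith)).mono (by linarith) fun ω a ⟨e, k1, k2, k3⟩ => ⟨_, ⟨e, k1, k2, rfl⟩, by
        linarith⟩) (by linarith)
    fun ω a ha => by rw [ha]; exact TL_cases (by linarith) ω
  calc _ ≤ ∫⁻ ω, ENNReal.ofReal (exp (B + 2)) * W ω ∂PE := by
        refine lintegral_mono fun ω => le_trans ?_ (mul_le_mul_right (a2 ω _ rfl) _)
        rw [← ENNReal.ofReal_mul (exp_pos _).le, ← exp_add]
        refine ENNReal.ofReal_le_ofReal (exp_le_exp.2 ?_)
        rw [← sub_le_iff_le_add, ← sub_div, div_le_iff₀ (by linarith)]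
        linarith
    _ ≤ ENNReal.ofReal (exp (B + 2)) * ENNReal.ofReal (exp 2) := by
        rw [lintegral_const_mul _ a1]
        gcongr
        refine a3.trans ?_
        rw [← ENNReal.ofReal_ofNat]
        exact ENNReal.ofReal_le_ofReal (by linarith [add_one_le_exp (2 : ℝ)])
    _ = _ := by rw [← ENNReal.ofReal_mul (exp_pos _).le, ← exp_add]; congr 2; ring

theorem upperU (h : IsTC μ) (hσ : Sc σ) (hB : 0 ≤ B) (hU : ∀ R, EstU μ σ B 1 R)
    (hm : 10 ^ 27 ≤ m) {K : ℕ} (hK : 1 ≤ K) {x : VV} (hx : μ (iv x) = K * m) :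
    ∫⁻ ω, ENNReal.ofReal (exp ((TT ω 0 x - K * m) / (36000 * σ m))) ∂PE ≤
      ENNReal.ofReal (exp ((B + 4) * K)) := by
  have hK' : (1 : ℝ) ≤ K := by exact_mod_cast hK
  have hm0 : 0 < m := by linarith
  have hu := unit_dir h hx (by positivity)
  set u := ((K : ℝ) * m)⁻¹ • iv x with hu'
  have hx' : iv x = ((K : ℝ) * m) • u := by rw [hu', smul_inv_smul₀ (by positivity)]
  clear_value u
  set y : ℕ → VV := fun i => fl (((i : ℝ) * m) • u) with hy
  have y0 : y 0 = 0 := by simp [hy, fl]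
  have yK : y K = x := by simp only [hy]; rw [← hx', fl_iv]
  have hd : ∀ i j : ℕ, μ (iv (y i - y j)) ≤ |(i : ℝ) - j| * m + 2 ∧
      |(i : ℝ) - j| * m - 2 ≤ μ (iv (y i - y j)) := fun i j => by
    have h1 := r1_fl_sub (((i : ℝ) * m) • u) (((j : ℝ) * m) • u)
    rw [← sub_smul, ← sub_mul] at h1
    have h2 := h.le_add (iv (y i - y j)) ((((i : ℝ) - j) * m) • u)
    have h3 := h.le_add ((((i : ℝ) - j) * m) • u) (iv (y i - y j))
    rw [r1_sub_comm] at h3
    rw [h.smul_abs, hu, abs_mul, abs_of_pos hm0] at h2 h3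
    constructor <;> linarith
  have hd1 : ∀ i, μ (iv (y (i + 1) - y i)) ≤ m + 2 := fun i => by simpa using (hd (i + 1) i).1
  set L := ⌈1000 * m⌉₊ with hL
  have L1 : 1000 * m ≤ L := Nat.le_ceil _
  have L2 : L ≤ 1001 * m := by linarith [Nat.ceil_lt_add_one (a := 1000 * m) (by linarith)]
  have s1 := hσ.big m (by linarith)
  set φ : ℕ → (EE → ℝ) → ℝ := fun c ω => ∑ i ∈ (Finset.range K).filter (· % 9000 = c),
    (TL L (y i) (y (i + 1)) ω - m) / (4 * σ m) with hφ
  refine le_trans (lintegral_mono fun ω => ?_) (lintegral_exp_avg_le (Z := Finset.range 9000)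
    (φ := φ) (by simp) (fun c _ => by simp only [hφ]; fun_prop) fun c _ => ?_)
  · refine ENNReal.ofReal_le_ofReal (exp_le_exp.2 ?_)
    simp only [avg, hφ]
    rw [Finset.sum_fiberwise_of_maps_to (g := (· % 9000))
      fun i _ => Finset.mem_range.2 (Nat.mod_lt _ (by norm_num)), ← Finset.sum_div,
      Finset.sum_sub_distrib]
    have h1 := TT_le_sum ω y K
    rw [y0, yK] at h1
    have h2 : ∑ i ∈ Finset.range K, TT ω (y i) (y (i + 1)) ≤
        ∑ i ∈ Finset.range K, TL L (y i) (y (i + 1)) ω := Finset.sum_le_sum fun i _ =>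
      TT_le_TL (by have := h.ge (iv (y (i + 1) - y i)); rw [r1_iv] at this; linarith [hd1 i]) ω
    simp only [Finset.sum_const, Finset.card_range, nsmul_eq_mul]
    rw [inv_mul_eq_div, div_div, show 4 * σ m * ((9000 : ℕ) : ℝ) =
      36000 * σ m by push_cast; ring]
    exact div_le_div_of_nonneg_right (by linarith) (by linarith)
  · simp only [hφ, exp_sum, ENNReal.ofReal_prod_of_nonneg fun _ _ => (exp_pos _).le]
    refine (lintegral_prod_le _ (S := fun i => (box (y i) L).sym2)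
      (c := ENNReal.ofReal (exp (B + 4))) (fun i _ => by fun_prop)
      (fun i _ ω ω' hω => by simp only [dependsOn_TL L (y i) (y (i + 1)) hω])
      (fun i hi j hj hij => ?_) fun i _ => lintegralU h hσ hB hU hm L1 L2 (hd1 i)).trans ?_
    · rw [Finset.disjoint_left]
      intro e h1 h2
      rw [Finset.mem_sym2_iff] at h1 h2
      obtain ⟨w, hw⟩ : ∃ w, w ∈ e := ⟨e.out.1, Sym2.out_fst_mem e⟩
      have a1 := n1_le_of_mem_box (h1 w hw) (mem_box_of_n1 (w := y i) (by simp [n1]))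
      have a2 := n1_le_of_mem_box (mem_box_of_n1 (w := y j) (by simp [n1])) (h2 w hw)
      have a3 := n1_add_le (y i - w) (w - y j)
      rw [sub_add_sub_cancel] at a3
      have a4 := h.le (iv (y i - y j))
      rw [r1_iv] at a4
      have a5 : (9000 : ℝ) ≤ |(i : ℝ) - j| := by
        have b1 := (Finset.mem_filter.1 hi).2
        have b2 := (Finset.mem_filter.1 hj).2
        have : (9000 : ℤ) ≤ |(i : ℤ) - j| := by
          rcases abs_cases ((i : ℤ) - j) with b | b <;> omega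
        exact_mod_cast this
      nlinarith [(hd i j).2]
    · rw [← ENNReal.ofReal_pow (exp_pos _).le, ← exp_nat_mul]
      refine ENNReal.ofReal_le_ofReal (exp_le_exp.2 ?_)
      have : ((((Finset.range K).filter (· % 9000 = c)).card : ℕ) : ℝ) ≤ K := by
        exact_mod_cast (Finset.card_filter_le _ _).trans (Finset.card_range K).le
      nlinarith

end Pool.Agent.Lib.MP_de94ef_pr.U
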