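import Pool.Agent.Lib.MP_de94ef_pr.U.Mgf

/-!
Deviation bounds with an exponent below two.
-/

open MeasureTheory ProbabilityTheory Set Real Function Filter Topology
open scoped ENNReal NNReal

namespace Pool.Agent.Lib.MP_de94ef_pr.U

open Pool.Agent.Lib.MP_de94ef_pr.Q

lemma one_le_bound {C a : ℝ} (h : a ≤ C) : (1 : ℝ≥0∞) ≤ ENNReal.ofReal (exp C * exp (-a)) := by
  rw [← exp_add]
  exact ENNReal.one_le_ofReal.2 (one_le_exp (by linarith))

lemma scale_key {D e η c x s n k : ℝ} (hD : 1 ≤ D) (e1 : e < 1 / 2) (hη : η = e / (1 - e))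
    (hc : c = (D ^ 2)⁻¹) (hx : 0 < x) (hn : 0 < n) (hs : s = n * x) (hk : k = c * (s * x ^ η)) :
    D * (k * (n / k) ^ e) ≤ s := by
  have c0 : 0 < c := by rw [hc]; positivity
  have c1 : c ≤ 1 := by rw [hc]; exact inv_le_one_of_one_le₀ (one_le_pow₀ hD)
  have p0 : 0 < x ^ η := rpow_pos_of_pos hx _
  have s0 : 0 < s := by rw [hs]; positivity
  have a1 : n / k = (c * x ^ (1 + η))⁻¹ := by
    rw [hk, hs, rpow_add hx, rpow_one]
    field_simp
  have a2 : (1 + η) * e = η := by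
    have : (1 - e) ≠ 0 := by linarith
    rw [hη]; field_simp; ring
  have a3 : (n / k) ^ e = (c ^ e * x ^ η)⁻¹ := by
    rw [a1, inv_rpow (by positivity), mul_rpow c0.le (by positivity), ← rpow_mul hx.le, a2]
  have a4 : D⁻¹ ≤ c ^ e := by
    refine le_trans (le_of_eq ?_) (rpow_le_rpow_of_exponent_ge c0 c1 e1.le)
    rw [← sqrt_eq_rpow, hc, sqrt_inv, sqrt_sq (by linarith)]
  have a5 : D * c = D⁻¹ := by rw [hc]; field_simp
  have q0 : 0 < c ^ e := rpow_pos_of_pos c0 _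
  have a6 : D * (k * (n / k) ^ e) = D * c * s / c ^ e := by
    rw [a3, hk]; field_simp
  rw [a6, a5, div_le_iff₀ q0, mul_comm s]
  exact mul_le_mul_of_nonneg_right a4 s0.le

theorem tail_eta : ∃ η c C : ℝ, 0 < η ∧ η < 1 ∧ 0 < c ∧ c ≤ 1 ∧ 1 ≤ C ∧ ∀ μ, IsTC μ →
    ∀ (v : VV) (s : ℝ), 0 < s → s ≤ n1 v → PE {ω | s ≤ |TT ω 0 v - μ (iv v)|} ≤
      ENNReal.ofReal (C * exp (-(c * (s * (s / n1 v) ^ η)))) := by
  obtain ⟨A, e, e0, e1, hA, hσ, hcc⟩ := conc_all
  obtain ⟨B, hB, hM⟩ := meanB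
  obtain ⟨Λ, hΛ, hL⟩ := lowerU
  obtain ⟨C, hC⟩ : ∃ C, C = B + Λ + 4 := ⟨_, rfl⟩
  have hC1 : 4 ≤ C := by linarith
  obtain ⟨D, hD⟩ : ∃ D, D = 72000 * C * A := ⟨_, rfl⟩
  have hD1 : 72000 ≤ D := by rw [hD]; nlinarith
  obtain ⟨c, hc⟩ : ∃ c, c = (D ^ 2)⁻¹ := ⟨_, rfl⟩
  have hc0 : 0 < c := by rw [hc]; positivity
  have hc1 : c * 22 ≤ 1 := by
    rw [hc, inv_mul_le_iff₀ (by positivity)]
    nlinarith
  obtain ⟨η, hη⟩ : ∃ η, η = e / (1 - e) := ⟨_, rfl⟩
  have η0 : 0 < η := by rw [hη]; exact div_pos e0 (by linarith)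
  refine ⟨η, c, 2 * exp C, η0, by rw [hη, div_lt_one (by linarith)]; linarith, hc0, by linarith,
    by linarith [add_one_le_exp C], fun μ h v s hs hr => ?_⟩
  have hU : ∀ R, EstU μ (fun r => A * r ^ e) B 1 R := fun R =>
    (estBase h hσ (hcc μ h |R|) (hM μ _ |R| h hσ (hcc μ h |R|)) hB (le_abs_self R)
      (by linarith [le_abs_self R, abs_nonneg R])).1
  have hn : 0 < n1 v := by linarith
  obtain ⟨k, hk⟩ : ∃ k, k = c * (s * (s / n1 v) ^ η) := ⟨_, rfl⟩
  have key := scale_key (D := D) (x := s / n1 v) (by linarith) e1 hη hc (by positivity) hn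
    (by field_simp) hk
  have hk2 : k ≤ c * s := by
    rw [hk]
    refine mul_le_mul_of_nonneg_left (mul_le_of_le_one_right hs.le ?_) hc0.le
    exact rpow_le_one (by positivity) ((div_le_one hn).2 hr) η0.le
  rw [← hk, mul_assoc, ← exp_add]
  rcases le_or_gt k 1 with hk1 | hk1
  · refine prob_le_one.trans (ENNReal.one_le_ofReal.2 ?_)
    linarith [add_one_le_exp (C + -k)]
  set K := ⌈k⌉₊ with hK
  have K1 : k ≤ K := Nat.le_ceil _
  have K2 : (K : ℝ) ≤ k + 1 := (Nat.ceil_lt_add_one (by linarith)).le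
  have K3 : 1 ≤ K := by exact_mod_cast (by linarith : (1 : ℝ) ≤ K)
  obtain ⟨m, hm⟩ : ∃ m, μ (iv v) = K * m := ⟨μ (iv v) / K, by
    rw [mul_div_cancel₀ _ (by linarith)]⟩
  have a1 := h.le (iv v)
  have a2 := h.ge (iv v)
  rw [r1_iv, hm] at a1 a2
  have m0 : 0 < m := by
    by_contra hc'
    nlinarith
  have b0 : n1 v ≤ 22 * (k * m) := by nlinarith
  have m1 : 1 ≤ m := by
    have b1 : k * m ≤ c * n1 v * m := by gcongr; nlinarith
    by_contra hc'
    have b2 : c * n1 v * m < c * n1 v * 1 := by gcongr; linarith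
    nlinarith
  have m2 : m ≤ n1 v / k := by
    rw [le_div_iff₀ (by linarith)]; nlinarith
  have m3 : m ^ e ≤ (n1 v / k) ^ e := rpow_le_rpow m0.le m2 e0.le
  have s1 : 10 ^ 30 ≤ A * m ^ e := hσ.big m m1
  have m4 : 72000 * C * (k * (A * m ^ e)) ≤ s := by
    refine le_trans ?_ key
    rw [hD, show 72000 * C * (k * (A * m ^ e)) = 72000 * C * A * (k * m ^ e) by ring]
    gcongr
  have m5 : 2 * (A * m ^ e) ≤ m := by
    have b1 : 44 * (k * (A * m ^ e)) ≤ 72000 * C * (k * (A * m ^ e)) := by gcongr; linarith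
    exact le_of_mul_le_mul_left (a := 22 * k) (by linarith) (by linarith)
  have m6 : 2 * C * k ≤ s / (36000 * (A * m ^ e)) := by
    rw [le_div_iff₀ (by positivity)]
    linarith
  have m7 : s / (36000 * (A * m ^ e)) ≤ s / (432 * (A * m ^ e)) := by gcongr; norm_num
  have h1 := markov_exp (s := s) (by fun_prop) (by positivity)
    (upperU h hσ hB hU (m := m) (by linarith) K3 hm)
  have h2 := markov_exp (s := s) (by fun_prop) (by positivity)
    (hL h hσ (hcc μ h) hB hU m1 m5 K3 hm)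
  have b1 : (B + 4) * K ≤ C * (k + 1) := by gcongr; linarith
  have b2 : (B + Λ) * K ≤ C * (k + 1) := by gcongr; linarith
  have b3 : k ≤ C * k := by nlinarith
  rw [two_mul, ENNReal.ofReal_add (exp_pos _).le (exp_pos _).le, hm]
  refine le_trans (measure_mono fun ω hω => ?_) ((measure_union_le _ _).trans (add_le_add
    (h1.trans (ENNReal.ofReal_le_ofReal (exp_le_exp.2 (by linarith))))
    (h2.trans (ENNReal.ofReal_le_ofReal (exp_le_exp.2 (by linarith))))))
  rcases le_abs.1 (show s ≤ |TT ω 0 v - K * m| from hω) with h' | h'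
  · exact Or.inl h'
  · exact Or.inr (show s ≤ K * m - TT ω 0 v by linarith)

lemma far_tail {v : VV} {s : ℝ} (h : n1 v ≤ s / 4) :
    PE {ω | s ≤ TT ω 0 v} ≤ ENNReal.ofReal (exp (-(s / 4))) := by
  have a1 := lintegral_exp_wt_le (t := 1 / 2) (n := s / 4) (by norm_num) le_rfl
    ((card_stair 0 v).trans (by rwa [sub_zero]))
  have a2 := markov_exp (X := fun ω => wt ω (es (stair 0 v))) (S := 2) (s := s) (by fun_prop)
    (by norm_num) (by simpa only [div_eq_inv_mul, mul_one] using a1)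
  refine le_trans (measure_mono fun ω hω => le_trans hω (TT_le ω _))
    (a2.trans (ENNReal.ofReal_le_ofReal (le_of_eq ?_)))
  congr 1; ring

end Pool.Agent.Lib.MP_de94ef_pr.U
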