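import Pool.Agent.Lib.MP_de94ef_pr.U.Point

/-!
Shape fluctuations with an exponent below two.
-/

open MeasureTheory ProbabilityTheory Set Real Function Filter Topology
open scoped ENNReal NNReal Pointwise

namespace Pool.Agent.Lib.MP_de94ef_pr.U

open Pool.Agent.Lib.MP_de94ef_pr.Q

lemma poly_exp {a b : ℝ} (ha : 0 < a) (hb : 0 < b) :
    ∃ G : ℝ, 1 ≤ G ∧ ∀ t : ℝ, 1 ≤ t → t ^ 2 * exp (-(b * t ^ a)) ≤ G := by
  obtain ⟨N, hN⟩ := exists_nat_ge (2 / a)
  refine ⟨max 1 (N.factorial / b ^ N), le_max_left _ _, fun t ht => le_trans ?_ (le_max_right _ _)⟩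
  have t0 : 0 < t := by linarith
  have u0 : 0 < t ^ a := rpow_pos_of_pos t0 _
  have a1 : t ^ 2 ≤ (t ^ a) ^ N := by
    rw [← rpow_natCast (t ^ a), ← rpow_mul t0.le, ← rpow_two]
    refine rpow_le_rpow_of_exponent_le ht ?_
    rw [div_le_iff₀ ha] at hN
    linarith
  have a2 := pow_div_factorial_le_exp (b * t ^ a) (by positivity) N
  have f0 : (0 : ℝ) < N.factorial := by exact_mod_cast N.factorial_pos
  rw [div_le_iff₀ f0, mul_pow] at a2
  rw [exp_neg, ← div_eq_mul_inv, div_le_div_iff₀ (exp_pos _) (by positivity)]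
  have a3 := mul_le_mul_of_nonneg_right a1 (pow_pos hb N).le
  linarith

lemma bad_card {μ : ℝ × ℝ → ℝ} {A t p : ℝ} (ht : 1 ≤ t)
    (h : ∀ e, n1 e ≤ 22 * t → PE {ω | Bad μ A t e ω} ≤ ENNReal.ofReal p) :
    PE (BadU μ A t) ≤ ENNReal.ofReal ((47 * t) ^ 2) * ENNReal.ofReal p := by
  classical
  set Z := (box 0 ⌈22 * t⌉₊).filter fun e => n1 e ≤ 22 * t with hZ
  have e4 : {e | n1 e ≤ 22 * t} = (Z : Set VV) := by
    ext e
    simp only [hZ, Finset.coe_filter, mem_ofPred_eq, iff_and_self]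
    exact fun he => mem_box_of_n1 (by rw [sub_zero]; exact he.trans (Nat.le_ceil _))
  have e5 : (Z.card : ℝ) ≤ (47 * t) ^ 2 := by
    have a1 : (Z.card : ℝ) ≤ (box 0 ⌈22 * t⌉₊).card := by exact_mod_cast Finset.card_filter_le _ _
    rw [card_box] at a1
    push_cast at a1
    refine a1.trans ?_
    gcongr
    linarith [Nat.ceil_lt_add_one (a := 22 * t) (by linarith)]
  rw [BadU, e4]
  refine (measure_biUnion_finset_le Z _).trans ((Finset.sum_le_card_nsmul _ _ _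
    fun e he => h e (Finset.mem_filter.1 he).2).trans ?_)
  rw [nsmul_eq_mul, ← ENNReal.ofReal_natCast]
  exact mul_le_mul_left (ENNReal.ofReal_le_ofReal e5) _

lemma half_sqrt {s t : ℝ} (ht : 0 < t) : s / (2 * √t) * √t = s / 2 := by
  have := sqrt_pos.2 ht
  field_simp

theorem bad_theta : ∃ θ c C : ℝ, 1 < θ ∧ θ < 2 ∧ 0 < c ∧ c ≤ 1 ∧ exp 8 ≤ C ∧ ∀ μ, IsTC μ →
    ∀ t s : ℝ, 1 ≤ s → s ≤ t → PE (BadU μ (s / (2 * √t)) t) ≤
      ENNReal.ofReal (C * exp (-(c * (t * (s / t) ^ θ)))) := by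
  obtain ⟨η, c, C, η0, η1, c0, c1, hC, H⟩ := tail_eta
  obtain ⟨θ, hθ⟩ : ∃ θ, θ = (3 + η) / 2 := ⟨_, rfl⟩
  have θ1 : 1 + η < θ := by linarith
  obtain ⟨ρ, hρ⟩ : ∃ ρ, ρ = (1 + η) / θ := ⟨_, rfl⟩
  have ρ0 : 0 < ρ := by rw [hρ]; exact div_pos (by linarith) (by linarith)
  have ρ1 : ρ < 1 := by rw [hρ, div_lt_one (by linarith)]; exact θ1
  have ρ2 : θ * ρ = 1 + η := by rw [hρ, mul_div_cancel₀ _ (by linarith)]
  obtain ⟨G, G1, hG⟩ := poly_exp (a := 1 - ρ) (b := c / 704) (by linarith) (by positivity)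
  have z1 : 0 ≤ 47 ^ 2 * (C + 1) * G := by positivity
  refine ⟨θ, c / 704, 47 ^ 2 * (C + 1) * G + exp 8, by linarith, by linarith, by positivity,
    by linarith, by linarith, fun μ h t s s1 st => ?_⟩
  have t1 : 1 ≤ t := s1.trans st
  have t0 : 0 < t := by linarith
  have s0 : 0 < s := by linarith
  have x0 : 0 < s / t := by positivity
  have x1 : s / t ≤ 1 := (div_le_one t0).2 st
  rcases le_total (t * (s / t) ^ θ) 1 with hy | hy
  · refine prob_le_one.trans ((one_le_bound (C := 8) (a := c / 704 * (t * (s / t) ^ θ)) ?_).trans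
      (ENNReal.ofReal_le_ofReal (mul_le_mul_of_nonneg_right (by linarith) (exp_pos _).le)))
    nlinarith
  obtain ⟨y, hyd⟩ : ∃ y, y = s * (s / t) ^ η := ⟨_, rfl⟩
  have y1 : y = t * (s / t) ^ (1 + η) := by
    rw [hyd, rpow_add x0, rpow_one]; field_simp
  have y2 : t * (s / t) ^ θ ≤ y := by
    rw [y1]
    exact mul_le_mul_of_nonneg_left (rpow_le_rpow_of_exponent_ge x0 x1 θ1.le) t0.le
  have y3 : y ≤ t := by
    rw [y1]
    exact mul_le_of_le_one_right t0.le (rpow_le_one x0.le x1 (by linarith))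
  have y4 : t ^ (1 - ρ) ≤ y := by
    have b1 : t⁻¹ ≤ (s / t) ^ θ := by
      rw [inv_le_iff_one_le_mul₀' t0]; exact hy
    have b2 := rpow_le_rpow (by positivity) b1 ρ0.le
    rw [← rpow_mul x0.le, ρ2, inv_rpow t0.le] at b2
    rw [y1, rpow_sub t0, rpow_one, div_eq_mul_inv]
    exact mul_le_mul_of_nonneg_left b2 t0.le
  have point : ∀ e, n1 e ≤ 22 * t → PE {ω | Bad μ (s / (2 * √t)) t e ω} ≤
      ENNReal.ofReal ((C + 1) * exp (-(c / 352 * y))) := fun e he => by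
    rw [add_mul, ENNReal.ofReal_add (by positivity) (by positivity)]
    refine (measure_union_le {ω | t / 4 ≤ n1 e ∧ s / (2 * √t) * √t / 2 ≤ |TT ω 0 e - μ (iv e)|}
      {ω | n1 e ≤ t / 4 ∧ t ≤ TT ω 0 e}).trans (add_le_add ?_ ?_)
    · by_cases hn : t / 4 ≤ n1 e
      swap
      · simp [hn]
      simp only [hn, true_and, half_sqrt t0]
      refine (H μ h e _ (by positivity) (by linarith)).trans (ENNReal.ofReal_le_ofReal ?_)
      refine mul_le_mul_of_nonneg_left (exp_le_exp.2 (neg_le_neg ?_)) (by linarith)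
      have n0 : 0 < n1 e := by linarith
      have b1 : s / t / 88 ≤ s / 2 / 2 / n1 e := by
        rw [div_div, div_div, div_div]
        exact div_le_div_of_nonneg_left s0.le (by positivity) (by linarith)
      have b2 := rpow_le_rpow (by positivity) b1 η0.le
      have b3 : (88 : ℝ) ^ η ≤ 88 :=
        (rpow_le_rpow_of_exponent_le (by norm_num) η1.le).trans (rpow_one _).le
      have b4 : (s / t) ^ η / 88 ≤ (s / t / 88) ^ η := by
        rw [div_rpow x0.le (by norm_num)]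
        exact div_le_div_of_nonneg_left (by positivity) (by positivity) b3
      have b5 := mul_le_mul_of_nonneg_left (b4.trans b2) (show 0 ≤ c * (s / 2 / 2) by positivity)
      rw [hyd]
      linarith
    · by_cases hn : n1 e ≤ t / 4
      swap
      · simp [hn]
      simp only [hn, true_and, one_mul]
      refine (far_tail hn).trans (ENNReal.ofReal_le_ofReal (exp_le_exp.2 (neg_le_neg ?_)))
      nlinarith
  refine (bad_card t1 point).trans ?_
  rw [← ENNReal.ofReal_mul (by positivity)]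
  refine ENNReal.ofReal_le_ofReal ?_
  have d1 : exp (-(c / 352 * y)) ≤
      exp (-(c / 704 * t ^ (1 - ρ))) * exp (-(c / 704 * (t * (s / t) ^ θ))) := by
    rw [← exp_add]
    refine exp_le_exp.2 ?_
    nlinarith
  have d2 := hG t t1
  have d3 := exp_pos (-(c / 704 * (t * (s / t) ^ θ)))
  calc (47 * t) ^ 2 * ((C + 1) * exp (-(c / 352 * y)))
      ≤ (47 * t) ^ 2 * ((C + 1) * (exp (-(c / 704 * t ^ (1 - ρ))) *
        exp (-(c / 704 * (t * (s / t) ^ θ))))) := by gcongr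
    _ = 47 ^ 2 * (C + 1) * (t ^ 2 * exp (-(c / 704 * t ^ (1 - ρ)))) *
        exp (-(c / 704 * (t * (s / t) ^ θ))) := by ring
    _ ≤ 47 ^ 2 * (C + 1) * G * exp (-(c / 704 * (t * (s / t) ^ θ))) := by gcongr
    _ ≤ _ := mul_le_mul_of_nonneg_right (by linarith [exp_pos 8]) d3.le

lemma symm_bad {μ : ℝ × ℝ → ℝ} (h : IsTC μ) {t s : ℝ} (h8 : 8 ≤ s) (st : s ≤ t) {ω : EE → ℝ}
    (hω : ∃ x ∈ symmDiff {x : ℝ × ℝ | ∃ v : ℤ × ℤ, TT ω 0 v ≤ t ∧ |x.1 - (v.1 : ℝ)| ≤ 1 / 2 ∧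
      |x.2 - (v.2 : ℝ)| ≤ 1 / 2} (t • {x : ℝ × ℝ | μ x ≤ 1}), s ≤ |μ x - t|) :
    ω ∈ BadU μ (s / (2 * √t)) t := by
  have t0 : 0 < t := by linarith
  have e1 := half_sqrt (s := s) t0
  obtain ⟨x, hx, hs⟩ := hω
  rcases mem_symmDiff.1 hx with ⟨a1, a2⟩ | ⟨a1, a2⟩
  · refine outer_bad h (by linarith) (by linarith) fun hc => ?_
    have a3 := hc a1
    rw [add_mul, one_mul, mul_assoc, rpow_half_mul t0, e1, mem_smul_ball h (by linarith)] at a3
    rw [mem_smul_ball h t0, not_le] at a2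
    rw [abs_of_pos (by linarith)] at hs
    linarith
  · refine inner_bad h (by linarith) (by linarith) fun hc => a2 (hc ?_)
    rw [sub_mul, one_mul, mul_assoc, rpow_half_mul t0, e1, mem_smul_ball h (by linarith)]
    rw [mem_smul_ball h t0] at a1
    rw [abs_of_nonpos (by linarith)] at hs
    linarith

end Pool.Agent.Lib.MP_de94ef_pr.U
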